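import Pool.Agent.H749.VG.Defs

/-!
The endomorphisms `2` of an object `R` with `8 = 0`, `4 ≠ 0` and no maps `R⟦1⟧ ⟶ R`.
-/

set_option autoImplicit false
set_option linter.unusedSectionVars false

open CategoryTheory CategoryTheory.Limits CategoryTheory.Pretriangulated

namespace Pool.Agent.H749.VG

universe v u

variable {C : Type u} [Category.{v} C] [Preadditive C] [HasZeroObject C] [HasShift C ℤ]
  [∀ n : ℤ, (shiftFunctor C n).Additive] [Pretriangulated C]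

/-- Unfolding of `VerdierGood`, with all the objects made explicit. -/
theorem VerdierGood.out {X Y Z X' Y' Z' : C} {u : X ⟶ Y} {v : Y ⟶ Z} {w : Z ⟶ X⟦(1 : ℤ)⟧}
    {u' : X' ⟶ Y'} {v' : Y' ⟶ Z'} {w' : Z' ⟶ X'⟦(1 : ℤ)⟧}
    {φ : Triangle.mk u v w ⟶ Triangle.mk u' v' w'} (hφ : VerdierGood φ)
    (f : X ⟶ X') (g : Y ⟶ Y') (h : Z ⟶ Z') (hf : φ.hom₁ = f) (hg : φ.hom₂ = g)
    (hh : φ.hom₃ = h) :
    ∃ (A X'' Y'' : C) (vt : Y' ⟶ A) (wt : A ⟶ X⟦(1 : ℤ)⟧)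
      (f' : X' ⟶ X'') (f'' : X'' ⟶ X⟦(1 : ℤ)⟧) (g' : Y' ⟶ Y'') (g'' : Y'' ⟶ Y⟦(1 : ℤ)⟧)
      (α₁ : Z ⟶ A) (β₁ : A ⟶ Y'') (α₂ : X'' ⟶ A) (β₂ : A ⟶ Z'),
      Triangle.mk (u ≫ g) vt wt ∈ distTriang C ∧
      Triangle.mk f f' f'' ∈ distTriang C ∧ Triangle.mk g g' g'' ∈ distTriang C ∧
      IsOct u v w g g' g'' vt wt α₁ β₁ ∧ IsOct f f' f'' u' v' w' vt wt α₂ β₂ ∧
      h = α₁ ≫ β₂ := by
  subst hf hg hh
  exact hφ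

/-- Two distinguished triangles on the same map are isomorphic. -/
lemma exists_iso_of_dist {X Y Z Z' : C} {u : X ⟶ Y} {v : Y ⟶ Z} {w : Z ⟶ X⟦(1 : ℤ)⟧}
    {v' : Y ⟶ Z'} {w' : Z' ⟶ X⟦(1 : ℤ)⟧} (h : Triangle.mk u v w ∈ distTriang C)
    (h' : Triangle.mk u v' w' ∈ distTriang C) :
    ∃ j : Z ≅ Z', v ≫ j.hom = v' ∧ w = j.hom ≫ w' := by
  obtain ⟨j, hj₁, hj₂⟩ : ∃ j : Z ⟶ Z', v ≫ j = 𝟙 Y ≫ v' ∧ w ≫ (𝟙 X)⟦(1 : ℤ)⟧' = j ≫ w' :=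
    complete_distinguished_triangle_morphism _ _ h h' (𝟙 X) (𝟙 Y) (by
      have : u ≫ 𝟙 Y = 𝟙 X ≫ u := by simp
      exact this)
  let m : Triangle.mk u v w ⟶ Triangle.mk u v' w' :=
    { hom₁ := 𝟙 X, hom₂ := 𝟙 Y, hom₃ := j
      comm₁ := by
        have : u ≫ 𝟙 Y = 𝟙 X ≫ u := by simp
        exact this
      comm₂ := hj₁
      comm₃ := hj₂ }
  have : IsIso j := isIso₃_of_isIso₁₂ m h h' (inferInstanceAs (IsIso (𝟙 X)))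
    (inferInstanceAs (IsIso (𝟙 Y)))
  refine ⟨asIso j, ?_, ?_⟩
  · rw [asIso_hom, hj₁, Category.id_comp]
  · rw [asIso_hom, ← hj₂, CategoryTheory.Functor.map_id, Category.comp_id]

/-- multiplication by `2` -/
def two (R : C) : R ⟶ R := (2 : ℤ) • 𝟙 R

lemma two_comp {R X : C} (a : R ⟶ X) : two R ≫ a = (2 : ℤ) • a := by simp [two]

lemma comp_two {R X : C} (a : X ⟶ R) : a ≫ two R = (2 : ℤ) • a := by simp [two]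

lemma two_shift (R : C) : (two R)⟦(1 : ℤ)⟧' = (2 : ℤ) • 𝟙 (R⟦(1 : ℤ)⟧) := by
  unfold two
  rw [Functor.map_zsmul, CategoryTheory.Functor.map_id]

lemma comp_two_shift {R X : C} (a : X ⟶ R⟦(1 : ℤ)⟧) : a ≫ (two R)⟦(1 : ℤ)⟧' = (2 : ℤ) • a := by
  rw [two_shift]; simp

lemma two_shift_comp {R X : C} (a : R⟦(1 : ℤ)⟧ ⟶ X) : (two R)⟦(1 : ℤ)⟧' ≫ a = (2 : ℤ) • a := by
  rw [two_shift]; simp

/-- The data: a triangle on `2 : R ⟶ R`. -/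
structure Dat (R : C) where
  Z : C
  v : R ⟶ Z
  w : Z ⟶ R⟦(1 : ℤ)⟧
  dist : Triangle.mk (two R) v w ∈ distTriang C

namespace Dat

variable {R : C} (D : Dat R)

/-- the triangle -/
abbrev T : Triangle C := Triangle.mk (two R) D.v D.w

lemma two_v : (2 : ℤ) • D.v = 0 := by
  rw [← two_comp]; exact comp_distTriang_mor_zero₁₂ _ D.dist

lemma v_w : D.v ≫ D.w = 0 := comp_distTriang_mor_zero₂₃ _ D.dist

lemma two_w : (2 : ℤ) • D.w = 0 := by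
  rw [← comp_two_shift]; exact comp_distTriang_mor_zero₃₁ _ D.dist

/-- The map of triangles `(2, 2, h)`. -/
def mor (h : D.Z ⟶ D.Z) (h₁ : D.v ≫ h = 0) (h₂ : h ≫ D.w = 0) : D.T ⟶ D.T where
  hom₁ := two R
  hom₂ := two R
  hom₃ := h
  comm₁ := rfl
  comm₂ := by
    show D.v ≫ h = two R ≫ D.v
    rw [h₁, two_comp, D.two_v]
  comm₃ := by
    show D.w ≫ (two R)⟦(1 : ℤ)⟧' = h ≫ D.w
    rw [h₂, comp_two_shift, D.two_w]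

/-- The map of triangles `(0, 0, h)`. -/
def mor₀ (h : D.Z ⟶ D.Z) (h₁ : D.v ≫ h = 0) (h₂ : h ≫ D.w = 0) : D.T ⟶ D.T where
  hom₁ := 0
  hom₂ := 0
  hom₃ := h
  comm₁ := by
    show two R ≫ (0 : R ⟶ R) = 0 ≫ two R
    rw [comp_zero, zero_comp]
  comm₂ := by
    show D.v ≫ h = 0 ≫ D.v
    rw [h₁, zero_comp]
  comm₃ := by
    show D.w ≫ (0 : R ⟶ R)⟦(1 : ℤ)⟧' = h ≫ D.w
    rw [h₂, Functor.map_zero, comp_zero]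

lemma chainHomotopic (h : D.Z ⟶ D.Z) (h₁ : D.v ≫ h = 0) (h₂ : h ≫ D.w = 0) :
    ChainHomotopic (D.mor h h₁ h₂) (D.mor₀ h h₁ h₂) := by
  refine ⟨(𝟙 R : R ⟶ R), (0 : D.Z ⟶ R), (0 : R⟦(1 : ℤ)⟧ ⟶ D.Z), ?_, ?_, ?_⟩
  · have : (two R - (0 : R ⟶ R))⟦(1 : ℤ)⟧' =
        (two R ≫ 𝟙 R)⟦(1 : ℤ)⟧' + (0 : R⟦(1 : ℤ)⟧ ⟶ D.Z) ≫ D.w := by simp
    exact this
  · have : two R - (0 : R ⟶ R) = 𝟙 R ≫ two R + D.v ≫ (0 : D.Z ⟶ R) := by simp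
    exact this
  · have : h - h = (0 : D.Z ⟶ R) ≫ D.v + D.w ≫ (0 : R⟦(1 : ℤ)⟧ ⟶ D.Z) := by simp
    exact this

/-- Existence of two Verdier good fill-ins. -/
theorem exists_fillins [IsTriangulated C] (D : Dat R) (h8 : (8 : ℤ) • 𝟙 R = 0) :
    ∃ (h h' : D.Z ⟶ D.Z) (h₁ : D.v ≫ h = 0) (h₂ : h ≫ D.w = 0) (h₁' : D.v ≫ h' = 0)
      (h₂' : h' ≫ D.w = 0) (φ : R⟦(1 : ℤ)⟧ ⟶ D.Z),
      VerdierGood (D.mor h h₁ h₂) ∧ VerdierGood (D.mor h' h₁' h₂') ∧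
      h' = h + D.w ≫ φ ∧ φ ≫ D.w = (4 : ℤ) • 𝟙 _ := by
  obtain ⟨A, vt, wt, hA⟩ := distinguished_cocone_triangle (two R ≫ two R)
  obtain ⟨o⟩ := (IsTriangulated.octahedron_axiom (rfl : two R ≫ two R = _) D.dist D.dist hA)
  obtain ⟨α, β, c₁, c₂, c₃, c₄, mem⟩ := o
  have e4 : (two R ≫ two R)⟦(1 : ℤ)⟧' = (4 : ℤ) • 𝟙 (R⟦(1 : ℤ)⟧) := by
    rw [Functor.map_comp, two_shift_comp, two_shift, smul_smul]; norm_num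
  have w4 : (4 : ℤ) • wt = 0 := by
    have h := comp_distTriang_mor_zero₃₁ _ hA
    have h' : wt ≫ (two R ≫ two R)⟦(1 : ℤ)⟧' = 0 := h
    rw [e4, Preadditive.comp_zsmul, Category.comp_id] at h'
    exact h'
  have vw : vt ≫ wt = 0 := comp_distTriang_mor_zero₂₃ _ hA
  have h8' : (8 : ℤ) • 𝟙 (R⟦(1 : ℤ)⟧) = 0 := by
    have := congrArg (fun a : R ⟶ R => a⟦(1 : ℤ)⟧') h8
    simpa [Functor.map_zsmul] using this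
  obtain ⟨l, hl⟩ : ∃ l : R⟦(1 : ℤ)⟧ ⟶ A, (2 : ℤ) • 𝟙 (R⟦(1 : ℤ)⟧) = l ≫ wt := by
    apply Triangle.coyoneda_exact₁ _ hA
    show ((2 : ℤ) • 𝟙 (R⟦(1 : ℤ)⟧)) ≫ (two R ≫ two R)⟦(1 : ℤ)⟧' = 0
    rw [e4, Preadditive.comp_zsmul, Category.comp_id, smul_smul]
    exact h8'
  -- the involution
  have hθ : (𝟙 A + wt ≫ l) ≫ (𝟙 A + wt ≫ l) = 𝟙 A := by
    have : wt ≫ l ≫ wt ≫ l = (2 : ℤ) • (wt ≫ l) := by
      rw [← Category.assoc l, ← hl]; simp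
    simp only [Preadditive.add_comp, Preadditive.comp_add, Category.id_comp, Category.comp_id,
      Category.assoc, this]
    have h4 : (4 : ℤ) • (wt ≫ l) = 0 := by rw [← Preadditive.zsmul_comp, w4, zero_comp]
    have : (4 : ℤ) • (wt ≫ l) = wt ≫ l + wt ≫ l + (2 : ℤ) • (wt ≫ l) := by
      rw [← two_zsmul, ← add_smul]; norm_num
    rw [add_assoc, ← add_assoc (wt ≫ l), ← this, h4, add_zero]
  let θ : A ≅ A := ⟨𝟙 A + wt ≫ l, 𝟙 A + wt ≫ l, hθ, hθ⟩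
  have hvθ : vt ≫ θ.hom = vt := by
    show vt ≫ (𝟙 A + wt ≫ l) = vt
    rw [Preadditive.comp_add, Category.comp_id, ← Category.assoc, vw, zero_comp, add_zero]
  have hvθ' : vt ≫ θ.inv = vt := hvθ
  have hθw : θ.hom ≫ wt = wt + (2 : ℤ) • wt := by
    show (𝟙 A + wt ≫ l) ≫ wt = _
    rw [Preadditive.add_comp, Category.id_comp, Category.assoc, ← hl]; simp
  have oct : IsOct (two R) D.v D.w (two R) D.v D.w vt wt α β :=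
    ⟨mem, c₁, c₂, c₃, c₄.symm⟩
  have oct' : IsOct (two R) D.v D.w (two R) D.v D.w vt wt (α ≫ θ.hom) (θ.inv ≫ β) := by
    refine ⟨?_, ?_, ?_, ?_, ?_⟩
    · refine isomorphic_distinguished _ mem _ ?_
      refine Triangle.isoMk _ _ (Iso.refl _) θ.symm (Iso.refl _) ?_ ?_ ?_
      · have : (α ≫ θ.hom) ≫ θ.inv = 𝟙 D.Z ≫ α := by simp
        exact this
      · have : (θ.inv ≫ β) ≫ 𝟙 D.Z = θ.inv ≫ β := by simp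
        exact this
      · have : (D.w ≫ D.v⟦(1 : ℤ)⟧') ≫ (𝟙 D.Z)⟦(1 : ℤ)⟧' = 𝟙 D.Z ≫ D.w ≫ D.v⟦(1 : ℤ)⟧' := by simp
        exact this
    · rw [← Category.assoc, c₁, Category.assoc, hvθ]
    · rw [Category.assoc, hθw, Preadditive.comp_add, Preadditive.comp_zsmul, c₂, D.two_w, add_zero]
    · rw [← Category.assoc, hvθ', c₃]
    · rw [Category.assoc, ← c₄, comp_two_shift, Preadditive.comp_zsmul]
      change (2 : ℤ) • (θ.hom ≫ wt) = _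
      rw [hθw, smul_add, smul_smul]
      have : ((2 : ℤ) * 2) • wt = 0 := by norm_num [w4]
      rw [this, add_zero]
  have hmor : ∀ (a b : D.Z ⟶ A) (c : A ⟶ D.Z), a = b → True := fun _ _ _ _ => trivial
  have z₁ : D.v ≫ α ≫ β = 0 := by
    rw [← Category.assoc, c₁, Category.assoc, c₃, two_comp, D.two_v]
  have z₂ : (α ≫ β) ≫ D.w = 0 := by
    rw [Category.assoc, ← c₄, ← Category.assoc, c₂, comp_two_shift, D.two_w]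
  have z₁' : D.v ≫ (α ≫ θ.hom) ≫ β = 0 := by
    rw [← Category.assoc, oct'.comm₁, Category.assoc, c₃, two_comp, D.two_v]
  have z₂' : ((α ≫ θ.hom) ≫ β) ≫ D.w = 0 := by
    rw [Category.assoc, ← c₄, ← Category.assoc, oct'.comm₂, comp_two_shift, D.two_w]
  refine ⟨α ≫ β, (α ≫ θ.hom) ≫ β, z₁, z₂, z₁', z₂', l ≫ β, ?_, ?_, ?_, ?_⟩
  · exact ⟨A, D.Z, D.Z, vt, wt, D.v, D.w, D.v, D.w, α, β, α, β, hA, D.dist, D.dist, oct, oct, rfl⟩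
  · exact ⟨A, D.Z, D.Z, vt, wt, D.v, D.w, D.v, D.w, α ≫ θ.hom, θ.inv ≫ β, α, β, hA, D.dist,
      D.dist, oct', oct, rfl⟩
  · show (α ≫ (𝟙 A + wt ≫ l)) ≫ β = _
    rw [Preadditive.comp_add, Preadditive.add_comp, Category.comp_id, ← Category.assoc α, c₂,
      Category.assoc]
  · rw [Category.assoc, ← c₄, comp_two_shift, Preadditive.comp_zsmul, ← hl, smul_smul]
    norm_num

/-- exactness on the left of `R⟦1⟧ ⟶ R⟦1⟧`, for maps killed by `w` -/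
lemma exists_of_w_comp {X : C} (φ : R⟦(1 : ℤ)⟧ ⟶ X) (h : D.w ≫ φ = 0) :
    ∃ ψ : R⟦(1 : ℤ)⟧ ⟶ X, φ = (2 : ℤ) • ψ := by
  obtain ⟨ψ, hψ⟩ : ∃ ψ : R⟦(1 : ℤ)⟧ ⟶ X, φ = (-(two R)⟦(1 : ℤ)⟧') ≫ ψ :=
    Triangle.yoneda_exact₃ _ (rot_of_distTriang _ D.dist) (φ : R⟦(1 : ℤ)⟧ ⟶ X) h
  refine ⟨-ψ, ?_⟩
  rw [hψ, Preadditive.neg_comp, two_shift_comp, smul_neg]

lemma ne_of_four (h4 : (4 : ℤ) • 𝟙 R ≠ 0) (φ : R⟦(1 : ℤ)⟧ ⟶ D.Z)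
    (hφ : φ ≫ D.w = (4 : ℤ) • 𝟙 _) : D.w ≫ φ ≠ 0 := by
  intro h0
  obtain ⟨ψ, hψ⟩ := D.exists_of_w_comp φ h0
  apply h4
  apply (shiftFunctor C (1 : ℤ)).map_injective
  rw [Functor.map_zsmul, CategoryTheory.Functor.map_id, Functor.map_zero, ← hφ, hψ,
    Preadditive.zsmul_comp, ← Preadditive.comp_zsmul, D.two_w, comp_zero]

/-- `(0, 0, h)` is Verdier good only for `h = 0`, if there are no maps `R⟦1⟧ ⟶ R`. -/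
theorem eq_zero_of_verdierGood (hR : ∀ a : R⟦(1 : ℤ)⟧ ⟶ R, a = 0) (h : D.Z ⟶ D.Z)
    (h₁ : D.v ≫ h = 0) (h₂ : h ≫ D.w = 0) (hg : VerdierGood (D.mor₀ h h₁ h₂)) : h = 0 := by
  obtain ⟨A, X'', Y'', vt, wt, f', f'', g', g'', α₁, β₁, α₂, β₂, -, -, -, o₁, o₂, e'⟩ :=
    hg.out 0 0 h rfl rfl rfl
  have c₁ := o₁.comm₁
  have c₂ := o₂.comm₄
  rw [zero_comp] at c₁
  rw [Functor.map_zero, comp_zero] at c₂
  obtain ⟨ρ, hρ⟩ : ∃ ρ : R⟦(1 : ℤ)⟧ ⟶ A, α₁ = D.w ≫ ρ :=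
    Triangle.yoneda_exact₃ _ D.dist α₁ c₁
  obtain ⟨σ, hσ⟩ : ∃ σ : A ⟶ R, β₂ = σ ≫ D.v :=
    Triangle.coyoneda_exact₃ _ D.dist β₂ c₂
  have : h = D.w ≫ (ρ ≫ σ) ≫ D.v := by rw [e', hρ, hσ]; simp
  rw [this, hR (ρ ≫ σ), zero_comp, comp_zero]

/-- If `(2, 2, h)` and `(2, 2, h')` are both good, then `h = h'`. -/
theorem eq_of_good (hR : ∀ a : R⟦(1 : ℤ)⟧ ⟶ R, a = 0) (h h' : D.Z ⟶ D.Z)
    (h₁ : D.v ≫ h = 0) (h₂ : h ≫ D.w = 0) (h₁' : D.v ≫ h' = 0) (h₂' : h' ≫ D.w = 0)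
    (hg : Good (D.mor h h₁ h₂)) (hg' : Good (D.mor h' h₁' h₂')) : h = h' := by
  obtain ⟨Θ, hΘ₁, hΘ₂⟩ := complete_distinguished_triangle_morphism _ _ hg hg'
    (𝟙 (R ⊞ R)) (𝟙 (R ⊞ D.Z)) (by
      have : (biprod.desc (two R ≫ biprod.inl) (two R ≫ biprod.inl - D.v ≫ biprod.inr) :
        R ⊞ R ⟶ R ⊞ D.Z) ≫ 𝟙 _ = 𝟙 _ ≫ biprod.desc (two R ≫ biprod.inl)
          (two R ≫ biprod.inl - D.v ≫ biprod.inr) := by simp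
      exact this)
  let Θ' : D.Z ⊞ R⟦(1 : ℤ)⟧ ⟶ D.Z ⊞ R⟦(1 : ℤ)⟧ := Θ
  have e₁ : (biprod.desc (D.v ≫ biprod.inl) (h ≫ biprod.inl - D.w ≫ biprod.inr) :
      R ⊞ D.Z ⟶ D.Z ⊞ R⟦(1 : ℤ)⟧) ≫ Θ' = 𝟙 _ ≫ biprod.desc (D.v ≫ biprod.inl)
        (h' ≫ biprod.inl - D.w ≫ biprod.inr) := hΘ₁
  let i₁ : R⟦(1 : ℤ)⟧ ⟶ (R ⊞ R)⟦(1 : ℤ)⟧ := (biprod.inl : R ⟶ R ⊞ R)⟦(1 : ℤ)⟧'
  let i₂ : R⟦(1 : ℤ)⟧ ⟶ (R ⊞ R)⟦(1 : ℤ)⟧ := (biprod.inr : R ⟶ R ⊞ R)⟦(1 : ℤ)⟧'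
  have e₂ : (biprod.desc (D.w ≫ i₁) ((two R)⟦(1 : ℤ)⟧' ≫ i₁ - (two R)⟦(1 : ℤ)⟧' ≫ i₂)) ≫
      (𝟙 (R ⊞ R))⟦(1 : ℤ)⟧' = Θ' ≫ (biprod.desc (D.w ≫ i₁)
        ((two R)⟦(1 : ℤ)⟧' ≫ i₁ - (two R)⟦(1 : ℤ)⟧' ≫ i₂)) := hΘ₂
  rw [CategoryTheory.Functor.map_id, Category.comp_id] at e₂
  rw [Category.id_comp] at e₁
  have j₁ : i₁ ≫ (biprod.fst : R ⊞ R ⟶ R)⟦(1 : ℤ)⟧' = 𝟙 _ := by
    show (biprod.inl : R ⟶ R ⊞ R)⟦(1 : ℤ)⟧' ≫ _ = _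
    rw [← Functor.map_comp, biprod.inl_fst, CategoryTheory.Functor.map_id]
  have j₂ : i₁ ≫ (biprod.snd : R ⊞ R ⟶ R)⟦(1 : ℤ)⟧' = 0 := by
    show (biprod.inl : R ⟶ R ⊞ R)⟦(1 : ℤ)⟧' ≫ _ = _
    rw [← Functor.map_comp, biprod.inl_snd, Functor.map_zero]
  have j₃ : i₂ ≫ (biprod.fst : R ⊞ R ⟶ R)⟦(1 : ℤ)⟧' = 0 := by
    show (biprod.inr : R ⟶ R ⊞ R)⟦(1 : ℤ)⟧' ≫ _ = _
    rw [← Functor.map_comp, biprod.inr_fst, Functor.map_zero]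
  have j₄ : i₂ ≫ (biprod.snd : R ⊞ R ⟶ R)⟦(1 : ℤ)⟧' = 𝟙 _ := by
    show (biprod.inr : R ⟶ R ⊞ R)⟦(1 : ℤ)⟧' ≫ _ = _
    rw [← Functor.map_comp, biprod.inr_snd, CategoryTheory.Functor.map_id]
  have f₁ : Θ' ≫ biprod.desc D.w ((2 : ℤ) • 𝟙 _) = biprod.desc D.w ((2 : ℤ) • 𝟙 _) := by
    have := congrArg (fun t => t ≫ (biprod.fst : R ⊞ R ⟶ R)⟦(1 : ℤ)⟧') e₂
    have k : (biprod.desc (D.w ≫ i₁) ((two R)⟦(1 : ℤ)⟧' ≫ i₁ - (two R)⟦(1 : ℤ)⟧' ≫ i₂)) ≫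
        (biprod.fst : R ⊞ R ⟶ R)⟦(1 : ℤ)⟧' = biprod.desc D.w ((2 : ℤ) • 𝟙 _) := by
      apply biprod.hom_ext'
      · simp only [biprod.inl_desc_assoc, biprod.inl_desc, Category.assoc, j₁, Category.comp_id]
      · simp only [biprod.inr_desc_assoc, biprod.inr_desc, Category.assoc, j₁, j₃,
          Category.comp_id, Preadditive.sub_comp, comp_zero, sub_zero, two_shift]
    simp only [Category.assoc] at this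
    rw [k] at this
    exact this.symm
  have f₂ : Θ' ≫ biprod.desc (0 : D.Z ⟶ R⟦(1 : ℤ)⟧) (-((2 : ℤ) • 𝟙 _)) =
      biprod.desc (0 : D.Z ⟶ R⟦(1 : ℤ)⟧) (-((2 : ℤ) • 𝟙 _)) := by
    have := congrArg (fun t => t ≫ (biprod.snd : R ⊞ R ⟶ R)⟦(1 : ℤ)⟧') e₂
    have k : (biprod.desc (D.w ≫ i₁) ((two R)⟦(1 : ℤ)⟧' ≫ i₁ - (two R)⟦(1 : ℤ)⟧' ≫ i₂)) ≫
        (biprod.snd : R ⊞ R ⟶ R)⟦(1 : ℤ)⟧' =
        biprod.desc (0 : D.Z ⟶ R⟦(1 : ℤ)⟧) (-((2 : ℤ) • 𝟙 _)) := by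
      apply biprod.hom_ext'
      · simp only [biprod.inl_desc_assoc, biprod.inl_desc, Category.assoc, j₂, comp_zero]
      · simp only [biprod.inr_desc_assoc, biprod.inr_desc, Category.assoc, j₂, j₄,
          Category.comp_id, Preadditive.sub_comp, comp_zero, zero_sub, two_shift]
    simp only [Category.assoc] at this
    rw [k] at this
    exact this.symm
  -- components
  obtain ⟨p, r, q, s, hl, hr⟩ : ∃ (p : D.Z ⟶ D.Z) (r : D.Z ⟶ R⟦(1 : ℤ)⟧) (q : R⟦(1 : ℤ)⟧ ⟶ D.Z)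
      (s : R⟦(1 : ℤ)⟧ ⟶ R⟦(1 : ℤ)⟧), biprod.inl ≫ Θ' = p ≫ biprod.inl + r ≫ biprod.inr ∧
        biprod.inr ≫ Θ' = q ≫ biprod.inl + s ≫ biprod.inr := by
    refine ⟨biprod.inl ≫ Θ' ≫ biprod.fst, biprod.inl ≫ Θ' ≫ biprod.snd,
      biprod.inr ≫ Θ' ≫ biprod.fst, biprod.inr ≫ Θ' ≫ biprod.snd, ?_, ?_⟩ <;>
    apply biprod.hom_ext <;> simp
  have E₁ : D.v ≫ p = D.v := by
    have := congrArg (fun t => biprod.inl ≫ t ≫ biprod.fst) e₁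
    simpa [hl, reassoc_of% hl] using this
  have E₂ : h ≫ p - D.w ≫ q = h' := by
    have := congrArg (fun t => biprod.inr ≫ t ≫ biprod.fst) e₁
    simpa [hl, hr, reassoc_of% hl, reassoc_of% hr] using this
  have E₃ : (2 : ℤ) • r = 0 := by
    have := congrArg (fun t => biprod.inl ≫ t) f₂
    simpa [reassoc_of% hl] using this
  have E₄ : p ≫ D.w + (2 : ℤ) • r = D.w := by
    have := congrArg (fun t => biprod.inl ≫ t) f₁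
    simpa [reassoc_of% hl] using this
  have E₅ : (2 : ℤ) • s = (2 : ℤ) • 𝟙 _ := by
    have := congrArg (fun t => biprod.inr ≫ t) f₂
    simpa [reassoc_of% hr] using this
  have E₆ : q ≫ D.w + (2 : ℤ) • s = (2 : ℤ) • 𝟙 _ := by
    have := congrArg (fun t => biprod.inr ≫ t) f₁
    simpa [reassoc_of% hr] using this
  rw [E₃, add_zero] at E₄
  rw [E₅, add_eq_right] at E₆
  obtain ⟨θ, hθ⟩ : ∃ θ : R⟦(1 : ℤ)⟧ ⟶ R, q = θ ≫ D.v := Triangle.coyoneda_exact₃ _ D.dist q E₆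
  obtain ⟨p', hp'⟩ : ∃ p' : R⟦(1 : ℤ)⟧ ⟶ D.Z, p - 𝟙 _ = D.w ≫ p' :=
    Triangle.yoneda_exact₃ _ D.dist (p - 𝟙 _ : D.Z ⟶ D.Z) (by
      have : D.v ≫ (p - 𝟙 _) = 0 := by rw [Preadditive.comp_sub, E₁, Category.comp_id, sub_self]
      exact this)
  have hp'' : p = 𝟙 _ + D.w ≫ p' := by rw [← hp']; abel
  rw [← E₂, hθ, hR θ, zero_comp, comp_zero, sub_zero, hp'', Preadditive.comp_add,
    Category.comp_id, ← Category.assoc, h₂, zero_comp, add_zero]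

/-- If the rotations of `(2, 2, h)` and `(2, 2, h')` are both Verdier good, where
`h' = h + w ≫ φ` and `φ ≫ w = 4`, then `4 = 0`. -/
theorem four_eq_zero_of_rotate (h h' : D.Z ⟶ D.Z)
    (h₁ : D.v ≫ h = 0) (h₂ : h ≫ D.w = 0) (h₁' : D.v ≫ h' = 0) (h₂' : h' ≫ D.w = 0)
    (φ : R⟦(1 : ℤ)⟧ ⟶ D.Z) (hh' : h' = h + D.w ≫ φ) (hφ : φ ≫ D.w = (4 : ℤ) • 𝟙 _)
    (hg : VerdierGood ((rotate C).map (D.mor h h₁ h₂)))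
    (hg' : VerdierGood ((rotate C).map (D.mor h' h₁' h₂'))) :
    (4 : ℤ) • 𝟙 (R⟦(1 : ℤ)⟧) = 0 := by
  obtain ⟨B, X₀, Y₀, vt, wt, q₁, q₂, q₃, q₄, α, β₁, α₂, β, hB, -, -, o₁, o₂, e⟩ :=
    VerdierGood.out (u := D.v) (v := D.w) (w := -(two R)⟦(1 : ℤ)⟧') (u' := D.v) (v' := D.w)
      (w' := -(two R)⟦(1 : ℤ)⟧') hg (two R) h ((two R)⟦(1 : ℤ)⟧') rfl rfl rfl
  obtain ⟨B', X₀', Y₀', vt', wt', r₁, r₂, r₃, r₄, α', β₁', α₂', β', hB', -, -, o₁', o₂', e'⟩ :=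
    VerdierGood.out (u := D.v) (v := D.w) (w := -(two R)⟦(1 : ℤ)⟧') (u' := D.v) (v' := D.w)
      (w' := -(two R)⟦(1 : ℤ)⟧') hg' (two R) h' ((two R)⟦(1 : ℤ)⟧') rfl rfl rfl
  rw [h₁] at hB
  rw [h₁'] at hB'
  obtain ⟨j, hj₁', hj₂'⟩ := exists_iso_of_dist hB hB'
  have ij₁ : vt' ≫ j.inv = vt := by rw [← hj₁']; simp
  have ij₂ : j.inv ≫ wt = wt' := by rw [hj₂']; simp
  -- the first map
  have A₁ : α ≫ wt = -((2 : ℤ) • 𝟙 (R⟦(1 : ℤ)⟧)) := by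
    rw [o₁.comm₂]; show -(two R)⟦(1 : ℤ)⟧' = _; rw [two_shift]
  have A₂ : D.w ≫ α = h ≫ vt := o₁.comm₁
  have A₃ : vt ≫ β = D.w := o₂.comm₃
  have A₄ : (2 : ℤ) • β = -((2 : ℤ) • wt) := by
    have : β ≫ (-(two R)⟦(1 : ℤ)⟧') = wt ≫ (two R)⟦(1 : ℤ)⟧' := o₂.comm₄
    rw [Preadditive.comp_neg, comp_two_shift, comp_two_shift] at this
    rw [← this, neg_neg]
  have A₅ : α ≫ β = (2 : ℤ) • 𝟙 (R⟦(1 : ℤ)⟧) := by rw [← e, two_shift]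
  -- the second map
  have B₁ : (α' ≫ j.inv) ≫ wt = -((2 : ℤ) • 𝟙 (R⟦(1 : ℤ)⟧)) := by
    rw [Category.assoc, ij₂, o₁'.comm₂]; show -(two R)⟦(1 : ℤ)⟧' = _; rw [two_shift]
  have B₂ : D.w ≫ α' ≫ j.inv = h' ≫ vt := by
    have : D.w ≫ α' = h' ≫ vt' := o₁'.comm₁
    rw [← Category.assoc, this, Category.assoc, ij₁]
  have B₃ : vt ≫ j.hom ≫ β' = D.w := by
    rw [← Category.assoc, hj₁']; exact o₂'.comm₃
  have B₄ : (2 : ℤ) • (j.hom ≫ β') = -((2 : ℤ) • wt) := by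
    have : β' ≫ (-(two R)⟦(1 : ℤ)⟧') = wt' ≫ (two R)⟦(1 : ℤ)⟧' := o₂'.comm₄
    rw [Preadditive.comp_neg, comp_two_shift, comp_two_shift] at this
    rw [hj₂', ← Preadditive.comp_zsmul, ← Preadditive.comp_zsmul, ← this, Preadditive.comp_neg,
      neg_neg]
  have B₅ : (α' ≫ j.inv) ≫ j.hom ≫ β' = (2 : ℤ) • 𝟙 (R⟦(1 : ℤ)⟧) := by
    rw [← two_shift, e']; simp
  generalize α' ≫ j.inv = α₀ at B₁ B₂ B₅
  generalize j.hom ≫ β' = β₀ at B₃ B₄ B₅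
  obtain ⟨ξ, hξ⟩ : ∃ ξ : R⟦(1 : ℤ)⟧ ⟶ B, (α₀ - α) - φ ≫ vt = (2 : ℤ) • ξ := by
    apply D.exists_of_w_comp
    rw [Preadditive.comp_sub, Preadditive.comp_sub, B₂, A₂, hh', Preadditive.add_comp,
      Category.assoc]
    abel
  have hα : α₀ = α + (φ ≫ vt + (2 : ℤ) • ξ) := by rw [← hξ]; abel
  have vw : vt ≫ wt = 0 := comp_distTriang_mor_zero₂₃ _ hB
  have h2ξ : (2 : ℤ) • (ξ ≫ wt) = 0 := by
    rw [hα, Preadditive.add_comp, A₁, Preadditive.add_comp, Category.assoc, vw, comp_zero,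
      zero_add, Preadditive.zsmul_comp] at B₁
    simpa using B₁
  obtain ⟨η, hη⟩ : ∃ η : R⟦(1 : ℤ)⟧ ⟶ R⟦(1 : ℤ)⟧, β₀ - β = wt ≫ η :=
    Triangle.yoneda_exact₃ _ hB (β₀ - β : B ⟶ R⟦(1 : ℤ)⟧) (by
      have : vt ≫ (β₀ - β) = 0 := by rw [Preadditive.comp_sub, B₃, A₃, sub_self]
      exact this)
  have hβ : β₀ = β + wt ≫ η := by rw [← hη]; abel
  have h2η : (2 : ℤ) • η = 0 := by
    have : wt ≫ ((2 : ℤ) • η) = 0 := by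
      rw [Preadditive.comp_zsmul, ← hη, smul_sub, B₄, A₄, sub_self]
    obtain ⟨ψ, hψ⟩ : ∃ ψ : D.Z⟦(1 : ℤ)⟧ ⟶ R⟦(1 : ℤ)⟧,
        (2 : ℤ) • η = (-(0 : R ⟶ D.Z)⟦(1 : ℤ)⟧') ≫ ψ :=
      Triangle.yoneda_exact₃ _ (rot_of_distTriang _ hB) ((2 : ℤ) • η : R⟦(1 : ℤ)⟧ ⟶ _) this
    rw [hψ, Functor.map_zero, neg_zero, zero_comp]
  have key : (4 : ℤ) • 𝟙 (R⟦(1 : ℤ)⟧) + (2 : ℤ) • (ξ ≫ β) = 0 := by
    have h1 : α ≫ wt ≫ η = 0 := by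
      rw [← Category.assoc, A₁, Preadditive.neg_comp, Preadditive.zsmul_comp, Category.id_comp,
        h2η, neg_zero]
    have h3 : ((2 : ℤ) • ξ) ≫ wt ≫ η = 0 := by
      rw [← Category.assoc, Preadditive.zsmul_comp, h2ξ, zero_comp]
    have h4 : φ ≫ vt ≫ wt ≫ η = 0 := by
      rw [← Category.assoc vt, vw, zero_comp, comp_zero]
    rw [hα, hβ] at B₅
    simp only [Preadditive.add_comp, Preadditive.comp_add, Category.assoc, A₅, A₃, h1, h3, h4,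
      hφ, add_zero, zero_add, Preadditive.zsmul_comp] at B₅
    have := sub_eq_zero.2 B₅
    rw [← this, Preadditive.zsmul_comp] at *
    abel
  have : (2 : ℤ) • (ξ ≫ β) = 0 := by
    rw [← Preadditive.comp_zsmul, A₄, Preadditive.comp_neg, Preadditive.comp_zsmul, h2ξ, neg_zero]
  rwa [this, add_zero] at key

end Dat

end Pool.Agent.H749.VG
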