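import Mathlib

/-!
Good, Verdier good and chain homotopic maps of triangles.
-/

set_option autoImplicit false

open CategoryTheory CategoryTheory.Limits CategoryTheory.Pretriangulated

namespace Pool.Agent.H749.VG

universe v u

variable {C : Type u} [Category.{v} C] [Preadditive C] [HasZeroObject C] [HasShift C ℤ]
  [∀ n : ℤ, (shiftFunctor C n).Additive] [Pretriangulated C]

/-- `(α, β)` is an octahedron for `X ⟶ Y ⟶ Y'`, with respect to the triangles `(u, v, w)` on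
`u : X ⟶ Y`, `(g, g', g'')` on `g : Y ⟶ Y'` and `(u ≫ g, vt, wt)` on the composition. -/
structure IsOct {X Y Z Y' Y'' A : C} (u : X ⟶ Y) (v : Y ⟶ Z) (w : Z ⟶ X⟦(1 : ℤ)⟧)
    (g : Y ⟶ Y') (g' : Y' ⟶ Y'') (g'' : Y'' ⟶ Y⟦(1 : ℤ)⟧)
    (vt : Y' ⟶ A) (wt : A ⟶ X⟦(1 : ℤ)⟧) (α : Z ⟶ A) (β : A ⟶ Y'') : Prop where
  dist : Triangle.mk α β (g'' ≫ v⟦(1 : ℤ)⟧') ∈ distTriang C
  comm₁ : v ≫ α = g ≫ vt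
  comm₂ : α ≫ wt = w
  comm₃ : vt ≫ β = g'
  comm₄ : β ≫ g'' = wt ≫ u⟦(1 : ℤ)⟧'

/-- The map of triangles `φ` is Verdier good: for some distinguished triangles on
`T.mor₁ ≫ φ.hom₂`, on `φ.hom₁` and on `φ.hom₂` there are octahedra for `φ.hom₂ ∘ T.mor₁` and for
`T'.mor₁ ∘ φ.hom₁` such that `φ.hom₃` is the composition of the corresponding maps
`T.obj₃ ⟶ A ⟶ T'.obj₃`. -/
def VerdierGood {T T' : Triangle C} (φ : T ⟶ T') : Prop :=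
  ∃ (A X'' Y'' : C) (vt : T'.obj₂ ⟶ A) (wt : A ⟶ T.obj₁⟦(1 : ℤ)⟧)
    (f' : T'.obj₁ ⟶ X'') (f'' : X'' ⟶ T.obj₁⟦(1 : ℤ)⟧)
    (g' : T'.obj₂ ⟶ Y'') (g'' : Y'' ⟶ T.obj₂⟦(1 : ℤ)⟧)
    (α₁ : T.obj₃ ⟶ A) (β₁ : A ⟶ Y'') (α₂ : X'' ⟶ A) (β₂ : A ⟶ T'.obj₃),
    Triangle.mk (T.mor₁ ≫ φ.hom₂) vt wt ∈ distTriang C ∧
    Triangle.mk φ.hom₁ f' f'' ∈ distTriang C ∧
    Triangle.mk φ.hom₂ g' g'' ∈ distTriang C ∧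
    IsOct T.mor₁ T.mor₂ T.mor₃ φ.hom₂ g' g'' vt wt α₁ β₁ ∧
    IsOct φ.hom₁ f' f'' T'.mor₁ T'.mor₂ T'.mor₃ vt wt α₂ β₂ ∧
    φ.hom₃ = α₁ ≫ β₂

/-- The mapping cone of a map of triangles. -/
noncomputable def mappingCone {T T' : Triangle C} (φ : T ⟶ T') : Triangle C :=
  Triangle.mk
    (biprod.desc (T'.mor₁ ≫ biprod.inl) (φ.hom₂ ≫ biprod.inl - T.mor₂ ≫ biprod.inr) :
      T'.obj₁ ⊞ T.obj₂ ⟶ T'.obj₂ ⊞ T.obj₃)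
    (biprod.desc (T'.mor₂ ≫ biprod.inl) (φ.hom₃ ≫ biprod.inl - T.mor₃ ≫ biprod.inr) :
      T'.obj₂ ⊞ T.obj₃ ⟶ T'.obj₃ ⊞ T.obj₁⟦(1 : ℤ)⟧)
    (biprod.desc (T'.mor₃ ≫ (biprod.inl : T'.obj₁ ⟶ T'.obj₁ ⊞ T.obj₂)⟦(1 : ℤ)⟧')
      (φ.hom₁⟦(1 : ℤ)⟧' ≫ (biprod.inl : T'.obj₁ ⟶ T'.obj₁ ⊞ T.obj₂)⟦(1 : ℤ)⟧' -
        T.mor₁⟦(1 : ℤ)⟧' ≫ (biprod.inr : T.obj₂ ⟶ T'.obj₁ ⊞ T.obj₂)⟦(1 : ℤ)⟧'))

/-- The map of triangles `φ` is good: its mapping cone is distinguished. -/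
def Good {T T' : Triangle C} (φ : T ⟶ T') : Prop := mappingCone φ ∈ distTriang C

omit [HasZeroObject C] [∀ n : ℤ, (shiftFunctor C n).Additive] [Pretriangulated C] in
/-- The maps of triangles `φ` and `ψ` are chain homotopic. -/
def ChainHomotopic {T T' : Triangle C} (φ ψ : T ⟶ T') : Prop :=
  ∃ (k₁ : T.obj₂ ⟶ T'.obj₁) (k₂ : T.obj₃ ⟶ T'.obj₂) (k₃ : T.obj₁⟦(1 : ℤ)⟧ ⟶ T'.obj₃),
    (φ.hom₁ - ψ.hom₁)⟦(1 : ℤ)⟧' = (T.mor₁ ≫ k₁)⟦(1 : ℤ)⟧' + k₃ ≫ T'.mor₃ ∧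
    φ.hom₂ - ψ.hom₂ = k₁ ≫ T'.mor₁ + T.mor₂ ≫ k₂ ∧
    φ.hom₃ - ψ.hom₃ = k₂ ≫ T'.mor₂ + T.mor₃ ≫ k₃

end Pool.Agent.H749.VG
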