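import Pool.Agent.H749.VG.Core

/-!
The object `ℤ/8` of the homotopy category of complexes of `ℤ/8`-modules.
-/

set_option autoImplicit false

open CategoryTheory CategoryTheory.Limits CategoryTheory.Pretriangulated

namespace Pool.Agent.H749.VG

/-- The homotopy category of cochain complexes of `ℤ/8`-modules. -/
abbrev K8 : Type 1 := HomotopyCategory (ModuleCat.{0} (ZMod 8)) (ComplexShape.up ℤ)

/-- the module `ℤ/8` as a complex in degree `0` -/
noncomputable abbrev S8 : CochainComplex (ModuleCat.{0} (ZMod 8)) ℤ :=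
  (HomologicalComplex.single (ModuleCat.{0} (ZMod 8)) (ComplexShape.up ℤ) 0).obj
    (ModuleCat.of (ZMod 8) (ZMod 8))

/-- the module `ℤ/8` as an object of `K8` -/
noncomputable abbrev R8 : K8 := (HomotopyCategory.quotient _ _).obj S8

lemma eight : (8 : ℤ) • 𝟙 R8 = 0 := by
  have h : (8 : ℤ) • 𝟙 (ModuleCat.of (ZMod 8) (ZMod 8)) = 0 := by
    apply ModuleCat.hom_ext
    apply LinearMap.ext
    intro x
    have h8 : ∀ y : ZMod 8, (8 : ℤ) • y = 0 := by decide
    exact h8 x
  have := congrArg (fun a => (HomotopyCategory.quotient _ _).map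
    ((HomologicalComplex.single (ModuleCat.{0} (ZMod 8)) (ComplexShape.up ℤ) 0).map a)) h
  simpa [Functor.map_zsmul] using this

lemma eq_zero_of_quotient {M N : ModuleCat.{0} (ZMod 8)} (f : M ⟶ N)
    (h : (HomotopyCategory.quotient _ _).map
      ((HomologicalComplex.single (ModuleCat.{0} (ZMod 8)) (ComplexShape.up ℤ) 0).map f) = 0) :
    f = 0 := by
  have hh := HomotopyCategory.homotopyOfEq _ _ (h.trans (Functor.map_zero _ _ _).symm)
  have e := hh.comm 0
  rw [dNext_eq hh.hom (show (ComplexShape.up ℤ).Rel 0 1 by simp),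
    prevD_eq hh.hom (show (ComplexShape.up ℤ).Rel (-1) 0 by simp)] at e
  simp only [HomologicalComplex.single_obj_d, zero_comp, comp_zero, add_zero,
    HomologicalComplex.zero_f, HomologicalComplex.single_map_f_self] at e
  have e2 := congrArg (fun t => (HomologicalComplex.singleObjXSelf (ComplexShape.up ℤ) 0 M).inv ≫ t ≫
    (HomologicalComplex.singleObjXSelf (ComplexShape.up ℤ) 0 N).hom) e
  simpa using e2

lemma four : (4 : ℤ) • 𝟙 R8 ≠ 0 := by
  intro h
  have h' : (HomotopyCategory.quotient _ _).map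
      ((HomologicalComplex.single (ModuleCat.{0} (ZMod 8)) (ComplexShape.up ℤ) 0).map
        ((4 : ℤ) • 𝟙 (ModuleCat.of (ZMod 8) (ZMod 8)))) = 0 := by
    rw [Functor.map_zsmul, Functor.map_zsmul, CategoryTheory.Functor.map_id,
      CategoryTheory.Functor.map_id]
    exact h
  have h2 := eq_zero_of_quotient _ h'
  have h3 := congrArg (fun t => (t.hom : ZMod 8 →ₗ[ZMod 8] ZMod 8) (1 : ZMod 8)) h2
  have h4 : (4 : ℤ) • (1 : ZMod 8) = 0 := h3
  revert h4
  decide

lemma no_maps (a : R8⟦(1 : ℤ)⟧ ⟶ R8) : a = 0 := by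
  let Q := HomotopyCategory.quotient (ModuleCat.{0} (ZMod 8)) (ComplexShape.up ℤ)
  let e := (Q.commShiftIso (1 : ℤ)).app S8
  obtain ⟨f, hf⟩ := Q.map_surjective (e.hom ≫ a : Q.obj (S8⟦(1 : ℤ)⟧) ⟶ Q.obj S8)
  have hf0 : f = 0 := by
    apply HomologicalComplex.hom_ext
    intro i
    by_cases hi : i = 0
    · subst hi
      apply IsZero.eq_of_src
      exact HomologicalComplex.isZero_single_obj_X (ComplexShape.up ℤ) 0
        (ModuleCat.of (ZMod 8) (ZMod 8)) (0 + 1) (by norm_num)
    · apply IsZero.eq_of_tgt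
      exact HomologicalComplex.isZero_single_obj_X (ComplexShape.up ℤ) 0
        (ModuleCat.of (ZMod 8) (ZMod 8)) i hi
  have : e.hom ≫ a = 0 := by rw [← hf, hf0, Functor.map_zero]
  rw [← cancel_epi e.hom, this, comp_zero]

lemma exists_dat : Nonempty (Dat R8) := by
  obtain ⟨Z, v, w, h⟩ := distinguished_cocone_triangle (two R8)
  exact ⟨⟨Z, v, w, h⟩⟩

end Pool.Agent.H749.VG
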